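import Pool.Agent.N135.ZO.Glob
import Pool.Agent.TH526.ZL.E

/-!
Mixed local behaviour at one place: some of the coordinates are near to the cusp, the others near to
ordinary CM points.
-/

set_option autoImplicit false

namespace Pool.Agent.U854.ZM

open UpperHalfPlane H294ZP Function NumberField IsDedekindDomain Pool.Agent.N135.ZO

/-- Above every place there is a valuation ring of `ℂ` which extends the Gauss valuation of the
algebraically independent coordinates, and the coordinates which are not units are few. -/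
theorem place_core {K : Type} [Field K] [NumberField K] (σ : K →+* ℂ)
    (v : HeightOneSpectrum (𝓞 K)) {n : ℕ} (c μ : Fin n → K) (hμ : ∀ i, μ i ≠ 0)
    {T : Type} (F : T → MForm (𝓞 K) n) {m : ℕ} (hgen : GenPos v.asIdeal F m)
    {x y : Fin n → ℂ}
    (hy : ∀ t, (F t).eval (σ.comp (algebraMap (𝓞 K) K)) y (fun _ => 1) = 0)
    (hxy : ∀ i, x i = σ (c i) + σ (μ i) * y i)
    (W : Finset (Fin n)) (hW : AlgebraicIndependent ℚ (fun i : W => x i)) :
    ∃ V : ValuationSubring ℂ, (∀ a : 𝓞 K, V.valuation (σ a) ≤ 1) ∧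
      (∀ a : 𝓞 K, V.valuation (σ a) < 1 ↔ a ∈ v.asIdeal) ∧
      {i | V.valuation (y i) ≠ 1}.ncard + W.card ≤ m := by
  classical
  obtain ⟨V, hA1, hA2, hyW, hV2⟩ : ∃ V : ValuationSubring ℂ,
      (∀ a : 𝓞 K, V.valuation (σ a) ≤ 1) ∧ (∀ a : 𝓞 K, V.valuation (σ a) < 1 ↔ a ∈ v.asIdeal) ∧
      (∀ i ∈ W, y i ∈ V) ∧
      (∀ Q : MvPolynomial W (𝓞 K),
        V.valuation (MvPolynomial.eval₂ (σ.comp (algebraMap (𝓞 K) K)) (fun i : W => y i) Q) < 1 ↔
        MvPolynomial.map (Ideal.Quotient.mk v.asIdeal) Q = 0) := by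
    let _ : Algebra K ℂ := σ.toAlgebra
    let _ : Algebra (𝓞 K) ℂ := (σ.comp (algebraMap (𝓞 K) K)).toAlgebra
    have _ : IsScalarTower (𝓞 K) K ℂ := IsScalarTower.of_algebraMap_eq (fun _ => rfl)
    have hmap : ∀ a : 𝓞 K, algebraMap (𝓞 K) ℂ a = σ a := fun _ => rfl
    have hKx : AlgebraicIndependent K (fun i : W => x i) := hW.extendScalars K
    have hKy : AlgebraicIndependent K (fun i : W => y i) :=
      indep_affine (fun i : W => c i) (fun i : W => μ i) (fun i => hμ i)
        (fun i => by rw [hxy i]; rfl) hKx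
    have hOy : AlgebraicIndependent (𝓞 K) (fun i : W => y i) :=
      hKy.restrictScalars (RingOfIntegers.coe_injective)
    have hprime : v.asIdeal.IsPrime := v.isPrime
    obtain ⟨V, hV1, hV2⟩ := exists_place_gauss v.asIdeal (fun i : W => y i) hOy
    have hA1 : ∀ a : 𝓞 K, V.valuation (σ a) ≤ 1 := by
      intro a
      have := hV1 (MvPolynomial.C a)
      rwa [MvPolynomial.aeval_C] at this
    have hA2 : ∀ a : 𝓞 K, V.valuation (σ a) < 1 ↔ a ∈ v.asIdeal := by
      intro a
      have := hV2 (MvPolynomial.C a)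
      rw [MvPolynomial.aeval_C, hmap, MvPolynomial.map_C, MvPolynomial.C_eq_zero,
        Ideal.Quotient.eq_zero_iff_mem] at this
      exact this
    have hyW : ∀ i ∈ W, y i ∈ V := by
      intro i hi
      have := hV1 (MvPolynomial.X ⟨i, hi⟩)
      rw [MvPolynomial.aeval_X] at this
      exact (V.valuation_le_one_iff _).1 this
    exact ⟨V, hA1, hA2, hyW, fun Q => hV2 Q⟩
  refine ⟨V, hA1, hA2, ?_⟩
  -- the residues
  let π : 𝓞 K →+* V :=
    { toFun := fun a => ⟨σ a, (V.valuation_le_one_iff _).1 (hA1 a)⟩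
      map_one' := Subtype.ext (by simp)
      map_mul' := fun a b => Subtype.ext (by simp)
      map_zero' := Subtype.ext (by simp)
      map_add' := fun a b => Subtype.ext (by simp) }
  let κ := IsLocalRing.ResidueField V
  let res : V →+* κ := IsLocalRing.residue V
  have hker : ∀ a ∈ v.asIdeal, (res.comp π) a = 0 := by
    intro a ha
    show IsLocalRing.residue V (π a) = 0
    rw [IsLocalRing.residue_eq_zero_iff, V.valuation_lt_one_iff]
    exact (hA2 a).2 ha
  let _ : Algebra (𝓞 K ⧸ v.asIdeal) κ := (Ideal.Quotient.lift v.asIdeal (res.comp π) hker).toAlgebra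
  have hres : (algebraMap (𝓞 K ⧸ v.asIdeal) κ).comp (Ideal.Quotient.mk v.asIdeal) = res.comp π := by
    ext a
    rfl
  -- the coordinates
  have hco : ∀ i, ∃ ξ ζ : V, (ξ : ℂ) = y i * ζ ∧ (res ξ ≠ 0 ∨ res ζ ≠ 0) ∧
      (V.valuation (y i) ≠ 1 → res ξ = 0 ∨ res ζ = 0) ∧ (y i ∈ V → ζ = 1) := by
    intro i
    by_cases hi : y i ∈ V
    · refine ⟨⟨y i, hi⟩, 1, by simp, Or.inr (by simp), fun h => Or.inl ?_, fun _ => rfl⟩
      show IsLocalRing.residue V _ = 0
      rw [IsLocalRing.residue_eq_zero_iff, V.valuation_lt_one_iff]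
      exact lt_of_ne_one hi h
    · have hgt : 1 < V.valuation (y i) := by
        rw [← not_le, V.valuation_le_one_iff]
        exact hi
      have hne : y i ≠ 0 := by
        rintro h
        rw [h, map_zero] at hgt
        exact absurd hgt (not_lt.2 zero_le)
      have hinv : (y i)⁻¹ ∈ V := (V.mem_or_inv_mem (y i)).resolve_left hi
      have hlt : V.valuation (y i)⁻¹ < 1 := by
        rw [map_inv₀]
        exact inv_lt_one_of_one_lt₀ hgt
      refine ⟨1, ⟨(y i)⁻¹, hinv⟩, ?_, Or.inl (by simp), fun _ => Or.inr ?_, fun h => absurd h hi⟩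
      · show (1 : ℂ) = y i * (y i)⁻¹
        rw [mul_inv_cancel₀ hne]
      · show IsLocalRing.residue V _ = 0
        rw [IsLocalRing.residue_eq_zero_iff, V.valuation_lt_one_iff]
        exact hlt
  choose ξ ζ hξ hne hzero hone using hco
  have hF : ∀ t, (F t).eval ((algebraMap (𝓞 K ⧸ v.asIdeal) κ).comp (Ideal.Quotient.mk v.asIdeal))
      (fun i => res (ξ i)) (fun i => res (ζ i)) = 0 := by
    intro t
    rw [hres, ← MForm.map_eval]
    have h2 : (F t).eval π ξ ζ = 0 := by
      apply Subtype.ext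
      have h3 := MForm.map_eval (F t) π V.subtype ξ ζ
      have h4 : V.subtype.comp π = σ.comp (algebraMap (𝓞 K) K) := by
        ext a
        rfl
      rw [h4] at h3
      have h5 : (fun i => V.subtype (ξ i)) = fun i => y i * V.subtype (ζ i) := funext hξ
      rw [h5, MForm.eval_mul, hy t, zero_mul] at h3
      exact h3
    rw [h2, map_zero]
  have hind : AlgebraicIndependent (𝓞 K ⧸ v.asIdeal) (fun i : W => res (ξ i) / res (ζ i)) := by
    have e : (fun i : W => res (ξ i) / res (ζ i)) = fun i : W => res (ξ i) := by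
      funext i
      rw [hone i (hyW i i.2), map_one, div_one]
    rw [e, algebraicIndependent_iff]
    intro Q hQ
    obtain ⟨Q, rfl⟩ := MvPolynomial.map_surjective (Ideal.Quotient.mk v.asIdeal)
      Ideal.Quotient.mk_surjective Q
    rw [← hV2 Q]
    have h2 : MvPolynomial.eval₂ (σ.comp (algebraMap (𝓞 K) K)) (fun i : W => y i) Q =
        ((MvPolynomial.eval₂ π (fun i : W => ξ i) Q : V) : ℂ) := by
      have h3 := MvPolynomial.eval₂_comp_left V.subtype π (fun i : W => ξ i) Q
      have h4 : (fun i : W => y i) = V.subtype ∘ fun i : W => ξ i := by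
        funext i
        simp only [Function.comp]
        have := hξ i
        rw [hone i (hyW i i.2)] at this
        simpa using this.symm
      rw [h4]
      exact h3.symm
    rw [h2, ← V.valuation_lt_one_iff, ← IsLocalRing.residue_eq_zero_iff]
    have h5 := MvPolynomial.eval₂_comp_left res π (fun i : W => ξ i) Q
    have h6 : MvPolynomial.aeval (fun i : W => res (ξ i))
        (MvPolynomial.map (Ideal.Quotient.mk v.asIdeal) Q) =
        MvPolynomial.eval₂ (res.comp π) (res ∘ fun i : W => ξ i) Q := by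
      rw [MvPolynomial.aeval_def, MvPolynomial.eval₂_map, hres]
      rfl
    rw [h6, ← h5] at hQ
    exact hQ
  have hgp := hgen κ (fun i => res (ξ i)) (fun i => res (ζ i)) hne hF W hind
  have hc2 : {i | V.valuation (y i) ≠ 1}.ncard ≤ {i | res (ξ i) = 0 ∨ res (ζ i) = 0}.ncard :=
    Set.ncard_le_ncard (fun i hi => hzero i hi) (Set.toFinite _)
  omega

/-- The coordinates which are units at the place: they are not constant, and two of them in the same
class are both near to the cusp, with exponents tied by the degree of the isogeny. -/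
theorem pair_core {K : Type} [Field K] [NumberField K] (σ : K →+* ℂ)
    (v : HeightOneSpectrum (𝓞 K)) {p : ℕ} (hp : p.Prime) (hpv : (p : 𝓞 K) ∈ v.asIdeal) {n : ℕ}
    (c μ : Fin n → K) (C : Finset (Fin n)) (e : Fin n → ℕ)
    (hC : ∀ i ∈ C, 0 < e i ∧ v.valuation K (μ i) = WithZero.exp (e i : ℤ) ∧
      v.valuation K (c i) < v.valuation K (μ i))
    (τ : Fin n → ℍ) (h2 : ∀ i, i ∉ C → p ≠ 2) (hτ : ∀ i, i ∉ C → jj (τ i) = σ (c i))
    (hcm : ∀ i, i ∉ C → IsCM (τ i)) (hord : ∀ i, i ∉ C → OrdAt p (τ i))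
    (h0 : ∀ i, i ∉ C → v.valuation K (c i) = 1)
    (h1 : ∀ i, i ∉ C → v.valuation K (c i - 1728) = 1)
    (hμ0 : ∀ i, i ∉ C → μ i ≠ 0) (hμ1 : ∀ i, i ∉ C → v.valuation K (μ i) < 1)
    (hμr : ∀ i, i ∉ C → ∀ k : ℕ, v.valuation K (μ i) ^ ((p - 1) * p ^ k) ≠ v.valuation K p)
    (hiso : ∀ i j, i ∉ C → j ∉ C → i ≠ j → ¬ Isog (jj (τ i)) (jj (τ j)))
    {V : ValuationSubring ℂ} (hA1 : ∀ a : 𝓞 K, V.valuation (σ a) ≤ 1)
    (hA2 : ∀ a : 𝓞 K, V.valuation (σ a) < 1 ↔ a ∈ v.asIdeal)
    {r : ℕ} (Z : SpecialDatum n r) {x y : Fin n → ℂ} (hxZ : x ∈ Z.locus)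
    (hxy : ∀ i, x i = σ (c i) + σ (μ i) * y i) (i : Fin n) (hi : V.valuation (y i) = 1) :
    Z.cls i ≠ none ∧ ∀ j, V.valuation (y j) = 1 → i ≠ j → Z.cls i = Z.cls j → i ∈ C ∧ j ∈ C ∧
      IsSquare (((Z.mat i).det * (Z.mat j).det).toNat * (e i * e j)) := by
  classical
  have hpV : V.valuation (p : ℂ) < 1 := by
    have := (hA2 (p : 𝓞 K)).2 hpv
    simpa using this
  have hpK : (p : K) ≠ 0 := by exact_mod_cast hp.ne_zero
  have hp0 : V.valuation (p : ℂ) ≠ 0 := by
    rw [Valuation.ne_zero_iff]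
    exact_mod_cast hp.ne_zero
  have hsub : ∀ i, x i - σ (c i) = σ (μ i) * y i := fun i => by rw [hxy i]; ring
  -- coordinates near to the cusp
  obtain ⟨ϖ, hϖ⟩ := v.valuation_exists_uniformizer K
  have hϖ0 : ϖ ≠ 0 := by
    rintro rfl
    rw [map_zero] at hϖ
    exact absurd hϖ.symm WithZero.coe_ne_zero
  have hϖlt : v.valuation K ϖ < 1 := by
    rw [hϖ, ← WithZero.exp_zero]
    exact WithZero.exp_lt_exp.2 (by norm_num)
  have hg1 : V.valuation (σ ϖ) < 1 := val_lt_of hA1 hA2 hϖlt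
  have hcusp : ∀ i ∈ C, V.valuation (y i) = 1 →
      V.valuation (x i) * V.valuation (σ ϖ) ^ e i = 1 ∧ 1 < V.valuation (x i) := by
    intro i hi hy1
    obtain ⟨he, hv, hc⟩ := hC i hi
    have hμi : μ i ≠ 0 := by
      intro h
      rw [h, map_zero] at hv
      exact absurd hv.symm WithZero.coe_ne_zero
    have e1 : V.valuation (σ (c i)) < V.valuation (σ (μ i)) := val_pow_lt hA1 hA2 hμi hc
    have e2 : V.valuation (σ (μ i) * y i) = V.valuation (σ (μ i)) := by rw [map_mul, hy1, mul_one]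
    have e3 : V.valuation (x i) = V.valuation (σ (μ i)) := by
      rw [hxy i, Valuation.map_add_eq_of_lt_right _ (by rw [e2]; exact e1), e2]
    have e4 : v.valuation K (μ i * ϖ ^ e i) = 1 := by
      rw [map_mul, map_pow, hv, hϖ, ← WithZero.exp_nsmul, ← WithZero.exp_add]
      simp
    have e5 : V.valuation (x i) * V.valuation (σ ϖ) ^ e i = 1 := by
      rw [e3, ← map_pow, ← map_mul, ← map_pow, ← map_mul]
      exact val_one_of hA1 hA2 e4
    refine ⟨e5, ?_⟩
    by_contra hcon
    have hle : V.valuation (x i) ≤ 1 := not_lt.1 hcon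
    have : V.valuation (x i) * V.valuation (σ ϖ) ^ e i < 1 :=
      calc V.valuation (x i) * V.valuation (σ ϖ) ^ e i ≤ 1 * V.valuation (σ ϖ) ^ e i :=
            mul_le_mul_left hle _
        _ = V.valuation (σ ϖ) ^ e i := one_mul _
        _ < 1 := pow_lt_one' hg1 he.ne'
    rw [e5] at this
    exact lt_irrefl _ this
  -- coordinates near to the CM points
  have hnear : ∀ i, i ∉ C → V.valuation (y i) = 1 → V.valuation (x i - jj (τ i)) < 1 ∧
      (∀ k : ℕ, V.valuation (x i - jj (τ i)) ^ ((p - 1) * p ^ k) ≠ V.valuation (p : ℂ)) ∧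
      x i ≠ jj (τ i) ∧ jj (τ i) ∈ V := by
    intro i hi hy1
    have e1 : V.valuation (x i - jj (τ i)) = V.valuation (σ (μ i)) := by
      rw [hτ i hi, hsub, map_mul, hy1, mul_one]
    rw [e1]
    refine ⟨val_lt_of hA1 hA2 (hμ1 i hi), fun k => ?_, fun h => ?_, ?_⟩
    · have h3 := val_ne hA1 hA2 (x := μ i ^ ((p - 1) * p ^ k)) (y := (p : K))
        (pow_ne_zero _ (hμ0 i hi)) hpK (by rw [map_pow]; exact hμr i hi k)
      rw [map_pow, map_pow, map_natCast] at h3
      exact h3
    · rw [sub_eq_zero.2 h, map_zero] at e1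
      exact (Valuation.ne_zero_iff _).2 ((map_ne_zero σ).2 (hμ0 i hi)) e1.symm
    · rw [hτ i hi]
      exact (V.valuation_le_one_iff _).1 (val_one_of hA1 hA2 (h0 i hi)).le
  have hmemx : ∀ i, i ∉ C → V.valuation (y i) = 1 → x i ∈ V := by
    intro i hi hy1
    obtain ⟨e1, -, -, e2⟩ := hnear i hi hy1
    have : x i = jj (τ i) + (x i - jj (τ i)) := by ring
    rw [this]
    exact V.add_mem _ _ e2 ((V.valuation_le_one_iff _).1 e1.le)
  have hG : ∀ (hl2 : p ≠ 2) (P : Pkg p hp.pos), ∀ i, i ∉ C → G0 P V (jj (τ i)) := by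
    intro hl2 P i hi
    obtain ⟨e, M, he, hdet, htr, hfix⟩ := hord i hi
    have hmem : jj (τ i) ∈ V := by
      rw [hτ i hi]
      exact (V.valuation_le_one_iff _).1 (val_one_of hA1 hA2 (h0 i hi)).le
    refine ⟨hmem, ord_of_fix hp hpV P hmem he hdet htr hfix, ?_, ?_⟩
    · rw [hτ i hi]
      exact val_one_of hA1 hA2 (h0 i hi)
    · have := val_one_of hA1 hA2 (h1 i hi)
      have e : σ (c i - 1728) = σ (c i) - 1728 := by
        rw [map_sub]
        congr 1
        exact map_ofNat σ 1728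
      rw [hτ i hi, ← e]
      exact this
  refine ⟨?_, ?_⟩
  · -- constants
    intro hn
    obtain ⟨z, hz⟩ := hxZ
    have hxi := (hz i).1 hn
    by_cases hiC : i ∈ C
    · have h3 := (hcusp i hiC hi).2
      have h4 : x i ∈ V := by
        rw [hxi]
        exact mem_of_integral_int V (singular_modulus_integral _ (Z.isCM i))
      exact absurd ((V.valuation_le_one_iff _).2 h4) (not_le.2 h3)
    · obtain ⟨P⟩ := exists_pkg hp (h2 i hiC)
      obtain ⟨hq1, hq2, hq3, -⟩ := hnear i hiC hi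
      rw [hxi] at hq1 hq2 hq3
      obtain ⟨k, hk⟩ := cm_radius hp (h2 i hiC) hpV P (hcm i hiC) (Z.isCM i)
        (hG (h2 i hiC) P i hiC) hq1 hq3
      exact hq2 k hk
  · intro j hj hij hcls
    obtain ⟨z, hz⟩ := hxZ
    have hxZ' : x ∈ Z.locus := ⟨z, hz⟩
    have hnone : Z.cls i ≠ none := by
      intro hn
      have hxi := (hz i).1 hn
      by_cases hiC : i ∈ C
      · have h3 := (hcusp i hiC hi).2
        have h4 : x i ∈ V := by
          rw [hxi]
          exact mem_of_integral_int V (singular_modulus_integral _ (Z.isCM i))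
        exact absurd ((V.valuation_le_one_iff _).2 h4) (not_le.2 h3)
      · obtain ⟨P⟩ := exists_pkg hp (h2 i hiC)
        obtain ⟨hq1, hq2, hq3, -⟩ := hnear i hiC hi
        rw [hxi] at hq1 hq2 hq3
        obtain ⟨k, hk⟩ := cm_radius hp (h2 i hiC) hpV P (hcm i hiC) (Z.isCM i)
          (hG (h2 i hiC) P i hiC) hq1 hq3
        exact hq2 k hk
    obtain ⟨k, hk⟩ := Option.ne_none_iff_exists'.1 hnone
    have hk' : Z.cls j = some k := hcls ▸ hk
    obtain ⟨w, hw1, hw2⟩ := (hz i).2 k hk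
    obtain ⟨w', hw1', hw2'⟩ := (hz j).2 k hk'
    by_cases hiC : i ∈ C
    · by_cases hjC : j ∈ C
      · refine ⟨hiC, hjC, ?_⟩
        have hpos : 0 < (Z.mat i).det * (Z.mat j).det := mul_pos (Z.det_pos i) (Z.det_pos j)
        have hN : 0 < ((Z.mat i).det * (Z.mat j).det).toNat := by omega
        have h3 : Polynomial.eval₂ (Polynomial.aeval (x i) : Polynomial ℂ →ₐ[ℂ] ℂ).toRingHom (x j)
            (Pool.Agent.W282.ZP.Psi ((Z.mat i).det * (Z.mat j).det).toNat) = 0 := by
          rw [← Pool.Agent.W282.ZP.eval_relPoly]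
          exact Pool.Agent.W282.ZP.eval_relPoly_eq_zero (Z.det_pos i) (Z.det_pos j) hw1 hw1' hw2
            hw2'
        have h4 := Pool.Agent.TH526.ZL.sq_tie' hN h3 V hg1 (hcusp i hiC hi).1 (hcusp j hjC hj).1
          (hcusp i hiC hi).2 (a := 1) (b := 1) (a' := 1) (b' := 1) rfl rfl
        simpa using h4
      · exfalso
        have h3 := rel_of_class isogenous_integral Z hxZ' hk' hk
        have h4 := mem_of_integral V (hmemx j hjC hj) h3
        exact absurd ((V.valuation_le_one_iff _).2 h4) (not_le.2 (hcusp i hiC hi).2)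
    · exfalso
      by_cases hjC : j ∈ C
      · have h3 := rel_of_class isogenous_integral Z hxZ' hk hk'
        have h4 := mem_of_integral V (hmemx i hiC hi) h3
        exact absurd ((V.valuation_le_one_iff _).2 h4) (not_le.2 (hcusp j hjC hj).2)
      · obtain ⟨P⟩ := exists_pkg hp (h2 i hiC)
        obtain ⟨A, hA, hrel⟩ := rel_of_two (M := Z.mat i) (M' := Z.mat j) (z := z k) (Z.det_pos i)
          (Z.det_pos j) hw1 hw1'
        refine hiso i j hiC hjC hij (near_isog hp (h2 i hiC) hpV P (hcm i hiC) (hcm j hjC)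
          (hG (h2 i hiC) P i hiC) (hG (h2 i hiC) P j hjC) hA hrel ?_ ?_)
        · rw [← hw2]
          exact (hnear i hiC hi).1
        · rw [← hw2']
          exact (hnear j hjC hj).1

/-- squares: the degree of the isogeny cancels -/
theorem square_cancel {N a b : ℕ} (hN : 0 < N) (ha : IsSquare (N * a)) (hb : IsSquare (N * b)) :
    IsSquare (a * b) := by
  obtain ⟨s, hs⟩ := ha
  obtain ⟨t, ht⟩ := hb
  have h : (N * N) * (a * b) = (s * t) * (s * t) := by
    calc (N * N) * (a * b) = (N * a) * (N * b) := by ring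
      _ = (s * t) * (s * t) := by rw [hs, ht]; ring
  have hd : N ∣ s * t := (Nat.pow_dvd_pow_iff two_ne_zero).1 (by
    rw [sq, sq]
    exact ⟨a * b, h.symm⟩)
  obtain ⟨q, hq⟩ := hd
  refine ⟨q, ?_⟩
  rw [hq] at h
  have h' : (N * N) * (a * b) = (N * N) * (q * q) := by rw [h]; ring
  exact Nat.eq_of_mul_eq_mul_left (by positivity) h'

end Pool.Agent.U854.ZM
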